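import Pool.Agent.Helper29.CP.Base

/-!
MP_82cbb9_al, module CP-7a: the truncated tensor algebra as a coefficient system.
-/

set_option autoImplicit false

namespace Pool.Agent.CP

namespace TensorSysAux

variable {E : Type} [AddCommGroup E] [Module ℚ E]

/-- the augmentation ideal -/
noncomputable def aug (E : Type) [AddCommGroup E] [Module ℚ E] : Ideal (TensorAlgebra ℚ E) :=
  RingHom.ker (TensorAlgebra.algebraMapInv : TensorAlgebra ℚ E →ₐ[ℚ] ℚ)

instance aug_two : (aug E).IsTwoSided := by unfold aug; infer_instance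

theorem mem_aug {x : TensorAlgebra ℚ E} :
    x ∈ aug E ↔ (TensorAlgebra.algebraMapInv : TensorAlgebra ℚ E →ₐ[ℚ] ℚ) x = 0 := by
  unfold aug; exact RingHom.mem_ker

theorem ι_mem_aug (e : E) : TensorAlgebra.ι ℚ e ∈ aug E := by
  rw [mem_aug]; simp [TensorAlgebra.algebraMapInv]

/-- an algebra endomorphism preserving the augmentation preserves the powers of `aug` -/
theorem map_aug_pow (g : TensorAlgebra ℚ E →ₐ[ℚ] TensorAlgebra ℚ E)
    (hg : ∀ x ∈ aug E, g x ∈ aug E) (r : ℕ) : ∀ x ∈ aug E ^ r, g x ∈ aug E ^ r := by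
  induction r with
  | zero => intro x _; rw [Submodule.pow_zero, Ideal.one_eq_top]; trivial
  | succ n ih =>
    intro x hx
    rw [Ideal.IsTwoSided.pow_succ] at hx ⊢
    refine Submodule.mul_induction_on hx ?_ ?_
    · intro a ha b hb
      rw [map_mul]
      exact Ideal.mul_mem_mul (hg a ha) (ih b hb)
    · intro a b ha hb
      rw [map_add]
      exact Ideal.add_mem _ ha hb

/-- the endomorphism of the tensor algebra given by `T : E → E` -/
noncomputable def tmap (T : Module.End ℚ E) : TensorAlgebra ℚ E →ₐ[ℚ] TensorAlgebra ℚ E :=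
  TensorAlgebra.lift ℚ (TensorAlgebra.ι ℚ ∘ₗ T)

@[simp] theorem tmap_ι (T : Module.End ℚ E) (e : E) :
    tmap T (TensorAlgebra.ι ℚ e) = TensorAlgebra.ι ℚ (T e) := by simp [tmap]

theorem tmap_one : tmap (1 : Module.End ℚ E) = AlgHom.id ℚ _ := by
  ext e; simp

theorem tmap_mul (S T : Module.End ℚ E) : tmap (S * T) = (tmap S).comp (tmap T) := by
  ext e; simp

theorem tmap_aug (T : Module.End ℚ E) : ∀ x ∈ aug E, tmap T x ∈ aug E := by
  have h : (TensorAlgebra.algebraMapInv : TensorAlgebra ℚ E →ₐ[ℚ] ℚ).comp (tmap T)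
      = TensorAlgebra.algebraMapInv := by
    ext e; simp [TensorAlgebra.algebraMapInv]
  intro x hx
  rw [mem_aug] at hx ⊢
  have := DFunLike.congr_fun h x
  rw [AlgHom.comp_apply] at this
  rw [this, hx]

/-- the truncated tensor algebra -/
abbrev Tr (c : ℕ) (E : Type) [AddCommGroup E] [Module ℚ E] : Type :=
  TensorAlgebra ℚ E ⧸ (aug E ^ (c + 1))

noncomputable def mk (c : ℕ) (E : Type) [AddCommGroup E] [Module ℚ E] :
    TensorAlgebra ℚ E →ₐ[ℚ] Tr c E := Ideal.Quotient.mkₐ ℚ (aug E ^ (c + 1))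

theorem mk_surj (c : ℕ) : Function.Surjective (mk c E) := Ideal.Quotient.mkₐ_surjective ℚ _

theorem mk_eq_zero {c : ℕ} {x : TensorAlgebra ℚ E} : mk c E x = 0 ↔ x ∈ aug E ^ (c + 1) := by
  unfold mk
  exact Ideal.Quotient.eq_zero_iff_mem

theorem pow_le_range (r : ℕ) :
    ((LinearMap.range (TensorAlgebra.ι ℚ (M := E))) ^ r : Submodule ℚ (TensorAlgebra ℚ E)) ≤
      (aug E ^ r).restrictScalars ℚ := by
  induction r with
  | zero =>
    intro x _
    rw [Submodule.restrictScalars_mem, Submodule.pow_zero, Ideal.one_eq_top]; trivial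
  | succ n ih =>
    rw [pow_succ', Submodule.mul_le]
    rintro _ ⟨e, rfl⟩ b hb
    rw [Submodule.restrictScalars_mem, Ideal.IsTwoSided.pow_succ]
    exact Ideal.mul_mem_mul (ι_mem_aug e) (ih hb)

theorem iSup_pow_eq_top :
    (⨆ r : ℕ, (LinearMap.range (TensorAlgebra.ι ℚ (M := E))) ^ r
      : Submodule ℚ (TensorAlgebra ℚ E)) = ⊤ := by
  rw [eq_top_iff]
  intro x _
  induction x using TensorAlgebra.induction with
  | algebraMap r =>
    refine Submodule.mem_iSup_of_mem 0 ?_
    rw [pow_zero]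
    exact Submodule.algebraMap_mem r
  | ι e =>
    refine Submodule.mem_iSup_of_mem 1 ?_
    rw [pow_one]
    exact ⟨e, rfl⟩
  | mul a b ha hb =>
    have ha' := ha trivial
    have hb' := hb trivial
    clear ha hb
    induction ha' using Submodule.iSup_induction' with
    | zero => rw [zero_mul]; exact Submodule.zero_mem _
    | add x y _ _ hx hy => rw [add_mul]; exact Submodule.add_mem _ (hx trivial) (hy trivial)
    | mem i x hx =>
      induction hb' using Submodule.iSup_induction' with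
      | zero => rw [mul_zero]; exact Submodule.zero_mem _
      | add u v _ _ hu hv => rw [mul_add]; exact Submodule.add_mem _ (hu trivial) (hv trivial)
      | mem j y hy =>
        refine Submodule.mem_iSup_of_mem (i + j) ?_
        rw [pow_add]
        exact Submodule.mul_mem_mul hx hy
  | add a b ha hb => exact Submodule.add_mem _ (ha trivial) (hb trivial)

instance finite_Tr (c : ℕ) [FiniteDimensional ℚ E] : FiniteDimensional ℚ (Tr c E) := by
  classical
  let R := LinearMap.range (TensorAlgebra.ι ℚ (M := E))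
  have hR : R.FG := by
    have : Module.Finite ℚ R := inferInstance
    exact (Module.Finite.iff_fg).1 this
  let W : Submodule ℚ (TensorAlgebra ℚ E) := ⨆ r ∈ Finset.range (c + 1), R ^ r
  have hW : W.FG := by
    refine Submodule.fg_biSup _ _ fun r _ => ?_
    exact Submodule.FG.pow hR r
  have hsurj : W.map (mk c E).toLinearMap = ⊤ := by
    rw [eq_top_iff]
    rintro y -
    obtain ⟨x, rfl⟩ := mk_surj c y
    have hx : x ∈ (⨆ r : ℕ, R ^ r : Submodule ℚ (TensorAlgebra ℚ E)) := by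
      rw [iSup_pow_eq_top]; trivial
    induction hx using Submodule.iSup_induction' with
    | zero => rw [map_zero]; exact Submodule.zero_mem _
    | add u v _ _ hu hv => rw [map_add]; exact Submodule.add_mem _ hu hv
    | mem i x hx =>
      by_cases hi : i < c + 1
      · refine ⟨x, ?_, rfl⟩
        have : R ^ i ≤ W := le_biSup (fun r => R ^ r) (Finset.mem_range.2 hi)
        exact this hx
      · have h1 : x ∈ aug E ^ i := pow_le_range i hx
        have h2 : x ∈ aug E ^ (c + 1) := Ideal.pow_le_pow_right (by omega) h1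
        rw [mk_eq_zero.2 h2]
        exact Submodule.zero_mem _
  have : (⊤ : Submodule ℚ (Tr c E)).FG := by
    rw [← hsurj]; exact hW.map _
  exact ⟨this⟩

/-- the augmentation ideal of the truncated algebra -/
noncomputable def JJ (c : ℕ) (E : Type) [AddCommGroup E] [Module ℚ E] : Ideal (Tr c E) :=
  (aug E).map (Ideal.Quotient.mk (aug E ^ (c + 1)))

instance JJ_two (c : ℕ) : (JJ c E).IsTwoSided := by unfold JJ; infer_instance

theorem mem_JJ {c : ℕ} {y : Tr c E} : y ∈ JJ c E ↔ ∃ x ∈ aug E, mk c E x = y := by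
  unfold JJ
  rw [Ideal.mem_map_iff_of_surjective _ Ideal.Quotient.mk_surjective]
  rfl

theorem mem_JJ_pow {c : ℕ} (r : ℕ) : ∀ y ∈ JJ c E ^ r, ∃ x ∈ aug E ^ r, mk c E x = y := by
  induction r with
  | zero =>
    intro y _
    obtain ⟨x, rfl⟩ := mk_surj c y
    exact ⟨x, by rw [Submodule.pow_zero, Ideal.one_eq_top]; trivial, rfl⟩
  | succ n ih =>
    intro y hy
    have hy2 : y ∈ JJ c E * JJ c E ^ n := by
      have := Ideal.IsTwoSided.pow_succ (I := JJ c E) n
      rwa [this] at hy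
    refine Submodule.mul_induction_on hy2 ?_ ?_
    · intro a ha b hb
      obtain ⟨a', ha', rfl⟩ := mem_JJ.1 ha
      obtain ⟨b', hb', rfl⟩ := ih b hb
      refine ⟨a' * b', ?_, map_mul _ _ _⟩
      rw [Ideal.IsTwoSided.pow_succ]
      exact Ideal.mul_mem_mul ha' hb'
    · rintro _ _ ⟨a, ha, rfl⟩ ⟨b, hb, rfl⟩
      exact ⟨a + b, Ideal.add_mem _ ha hb, map_add _ _ _⟩

theorem JJ_nil (c : ℕ) : JJ c E ^ (c + 1) = ⊥ := by
  rw [eq_bot_iff]
  intro y hy
  obtain ⟨x, hx, rfl⟩ := mem_JJ_pow (c + 1) y hy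
  rw [mk_eq_zero.2 hx]
  exact Submodule.zero_mem _

/-- the endomorphism of the truncated algebra given by `T : E → E` -/
noncomputable def trmap (c : ℕ) (T : Module.End ℚ E) : Tr c E →ₐ[ℚ] Tr c E :=
  Ideal.Quotient.liftₐ (aug E ^ (c + 1)) ((mk c E).comp (tmap T)) (by
    intro x hx
    rw [AlgHom.comp_apply]
    exact mk_eq_zero.2 (map_aug_pow _ (tmap_aug T) _ x hx))

@[simp] theorem trmap_mk (c : ℕ) (T : Module.End ℚ E) (x : TensorAlgebra ℚ E) :
    trmap c T (mk c E x) = mk c E (tmap T x) := rfl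

/-- the representation of endomorphisms of `E` on the truncated algebra -/
noncomputable def trHom (c : ℕ) (E : Type) [AddCommGroup E] [Module ℚ E] :
    Module.End ℚ E →* (Tr c E →ₐ[ℚ] Tr c E) where
  toFun := trmap c
  map_one' := by
    apply AlgHom.ext
    intro y
    obtain ⟨x, rfl⟩ := mk_surj c y
    rw [trmap_mk, tmap_one]; rfl
  map_mul' S T := by
    apply AlgHom.ext
    intro y
    obtain ⟨x, rfl⟩ := mk_surj c y
    rw [trmap_mk, tmap_mul]; rfl

/-- the action of `TT k` -/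
noncomputable def tract (c : ℕ) {k : ℕ} (ρ : TT k →* Module.End ℚ E) :
    TT k →* (Tr c E ≃ₐ[ℚ] Tr c E) :=
  (AlgEquiv.algHomUnitsEquiv ℚ (Tr c E)).toMonoidHom.comp
    (MonoidHom.toHomUnits ((trHom c E).comp ρ))

theorem tract_apply (c : ℕ) {k : ℕ} (ρ : TT k →* Module.End ℚ E) (t : TT k) (y : Tr c E) :
    tract c ρ t y = trmap c (ρ t) y := rfl

/-- the coefficient system -/
noncomputable def sys (c : ℕ) {k d : ℕ} [FiniteDimensional ℚ E] (ρ : TT k →* Module.End ℚ E)
    (ε : Fin d → E) : Sys k d c where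
  A := Tr c E
  ring := inferInstance
  alg := inferInstance
  fin := inferInstance
  J := JJ c E
  two := inferInstance
  nil := JJ_nil c
  act := tract c ρ
  actJ t y hy := by
    obtain ⟨x, hx, rfl⟩ := mem_JJ.1 hy
    rw [tract_apply, trmap_mk]
    exact mem_JJ.2 ⟨_, tmap_aug _ x hx, rfl⟩
  gen i := mk c E (TensorAlgebra.ι ℚ (ε i))
  genJ i := mem_JJ.2 ⟨_, ι_mem_aug _, rfl⟩

section Lift

variable {n : ℕ} (M : FilMod n) (φ : E →ₗ[ℚ] Module.End ℚ M.A)
  (hφ : ∀ e i, ∀ a ∈ M.Fil i, φ e a ∈ M.Fil (i + 1))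

include hφ in
theorem lift_fil (x : TensorAlgebra ℚ E) :
    (∀ i, ∀ a ∈ M.Fil i, TensorAlgebra.lift ℚ φ x a ∈ M.Fil i) ∧
    ∀ i, ∀ a ∈ M.Fil i, TensorAlgebra.lift ℚ φ x a
      - (TensorAlgebra.algebraMapInv : TensorAlgebra ℚ E →ₐ[ℚ] ℚ) x • a ∈ M.Fil (i + 1) := by
  induction x using TensorAlgebra.induction with
  | algebraMap r =>
    constructor
    · intro i a ha
      rw [AlgHom.commutes, Module.algebraMap_end_apply]
      exact Submodule.smul_mem _ _ ha
    · intro i a ha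
      rw [AlgHom.commutes, Module.algebraMap_end_apply]
      simp
  | ι e =>
    constructor
    · intro i a ha
      rw [TensorAlgebra.lift_ι_apply]
      exact M.anti (Nat.le_succ i) (hφ e i a ha)
    · intro i a ha
      rw [TensorAlgebra.lift_ι_apply]
      simpa [TensorAlgebra.algebraMapInv] using hφ e i a ha
  | mul a b ha hb =>
    constructor
    · intro i x hx
      rw [map_mul, Module.End.mul_apply]
      exact ha.1 i _ (hb.1 i x hx)
    · intro i x hx
      rw [map_mul, Module.End.mul_apply, map_mul]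
      have h1 := ha.2 i _ (hb.1 i x hx)
      have h2 := Submodule.smul_mem (M.Fil (i + 1))
        ((TensorAlgebra.algebraMapInv : TensorAlgebra ℚ E →ₐ[ℚ] ℚ) a) (hb.2 i x hx)
      have h3 := Submodule.add_mem _ h1 h2
      rw [smul_sub, ← mul_smul, sub_add_sub_cancel] at h3
      exact h3
  | add a b ha hb =>
    constructor
    · intro i x hx
      rw [map_add, LinearMap.add_apply]
      exact Submodule.add_mem _ (ha.1 i x hx) (hb.1 i x hx)
    · intro i x hx
      rw [map_add, LinearMap.add_apply, map_add, add_smul, add_sub_add_comm]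
      exact Submodule.add_mem _ (ha.2 i x hx) (hb.2 i x hx)

include hφ in
theorem lift_aug_pow (r : ℕ) : ∀ x ∈ aug E ^ r, ∀ i, ∀ a ∈ M.Fil i,
    TensorAlgebra.lift ℚ φ x a ∈ M.Fil (i + r) := by
  induction r with
  | zero => intro x _ i a ha; exact (lift_fil M φ hφ x).1 i a ha
  | succ m ih =>
    intro x hx i a ha
    rw [Ideal.IsTwoSided.pow_succ] at hx
    refine Submodule.mul_induction_on hx ?_ ?_
    · intro u hu v hv
      rw [map_mul, Module.End.mul_apply]
      have h1 := (lift_fil M φ hφ u).2 (i + m) _ (ih v hv i a ha)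
      rw [mem_aug.1 hu, zero_smul, sub_zero] at h1
      exact h1
    · intro u v hu hv
      rw [map_add, LinearMap.add_apply]
      exact Submodule.add_mem _ hu hv

end Lift

end TensorSysAux

open TensorSysAux in
/-- CP-7a (truncated tensor algebra) -/
theorem exists_tensorSys {k d : ℕ} (c : ℕ) {E : Type} [AddCommGroup E] [Module ℚ E]
    [FiniteDimensional ℚ E] (ρ : TT k →* Module.End ℚ E) (ε : Fin d → E) :
    ∃ (S : Sys k d c) (ι : E →ₗ[ℚ] S.A), (∀ e, ι e ∈ S.J) ∧ (∀ i, S.gen i = ι (ε i)) ∧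
      (∀ t e, S.act t (ι e) = ι (ρ t e)) ∧
      ∀ (n : ℕ) (M : FilMod n), n ≤ c + 1 → ∀ φ : E →ₗ[ℚ] Module.End ℚ M.A,
        (∀ e i, ∀ a ∈ M.Fil i, φ e a ∈ M.Fil (i + 1)) →
        ∃ Ψ : S.A →ₐ[ℚ] Module.End ℚ M.A, (∀ e, Ψ (ι e) = φ e) ∧
          ∀ r, ∀ x ∈ S.J ^ r, ∀ i, ∀ a ∈ M.Fil i, Ψ x a ∈ M.Fil (i + r) := by
  refine ⟨sys c ρ ε, (mk c E).toLinearMap ∘ₗ TensorAlgebra.ι ℚ, ?_, ?_, ?_, ?_⟩
  · intro e
    exact mem_JJ.2 ⟨_, ι_mem_aug e, rfl⟩
  · intro i; rfl
  · intro t e
    change trmap c (ρ t) (mk c E (TensorAlgebra.ι ℚ e)) = mk c E (TensorAlgebra.ι ℚ (ρ t e))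
    rw [trmap_mk, tmap_ι]
  · intro n M hn φ hφ
    have hker : ∀ x ∈ aug E ^ (c + 1), TensorAlgebra.lift ℚ φ x = 0 := by
      intro x hx
      ext a
      have h := lift_aug_pow M φ hφ (c + 1) x hx 0 a (by rw [M.top]; trivial)
      rw [zero_add] at h
      have h2 := M.anti hn h
      rw [M.bot, Submodule.mem_bot] at h2
      rw [h2]; rfl
    let Ψ : Tr c E →ₐ[ℚ] Module.End ℚ M.A :=
      Ideal.Quotient.liftₐ (aug E ^ (c + 1)) (TensorAlgebra.lift ℚ φ) hker
    have hΨ : ∀ x, Ψ (mk c E x) = TensorAlgebra.lift ℚ φ x := fun x => rfl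
    refine ⟨Ψ, ?_, ?_⟩
    · intro e
      change Ψ (mk c E (TensorAlgebra.ι ℚ e)) = φ e
      rw [hΨ, TensorAlgebra.lift_ι_apply]
    · intro r y hy i a ha
      obtain ⟨x, hx, rfl⟩ := mem_JJ_pow r y hy
      exact lift_aug_pow M φ hφ r x hx i a ha

end Pool.Agent.CP
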